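import Pool.Agent.P.MP_2b2d3b_ag.CoObs

/-!
Every bundle `0 → O_S → E → J_P(1) → 0` on a sextic surface with `P` of length `11` in a plane has
`h⁰(End⁰ E ⊗ K_S) ≥ 12`, where `K_S = O_S(2)`.
-/

namespace Pool.Agent.P.MP_2b2d3b_ag.Old.CoObstruction

open MvPolynomial Pool.Agent.P.MP_2b2d3b_ag

/-- The endomorphism `ψ` has trace zero over the function field of the cone `{F = 0}`: whenever
`m₁, m₂` are independent over `ℂ[x]/(F)` and `σ ψ` acts on them by the matrix `(a b; c d)`, the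
trace `a + d` vanishes modulo `F`. -/
def Traceless (F : Pol ℂ) {M : Type} [AddCommGroup M] [Module (Pol ℂ) M]
    (ψ : M →ₗ[Pol ℂ] M) : Prop :=
  ∀ (m₁ m₂ : M) (σ a b c d : Pol ℂ),
    (∀ x y : Pol ℂ, x • m₁ + y • m₂ = 0 → x ∈ Ideal.span {F} ∧ y ∈ Ideal.span {F}) →
    σ • ψ m₁ = a • m₁ + c • m₂ → σ • ψ m₂ = b • m₁ + d • m₂ → a + d ∈ Ideal.span {F}

theorem result (F : Pol ℂ) (hF : F.IsHomogeneous 6) (hirr : Irreducible F)
    (M : Type) [AddCommGroup M] [Module (Pol ℂ) M] (G : Grading ℂ M) (I : Ideal (Pol ℂ))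
    (hE : IsExtension F G I) (l : Pol ℂ) (hl : l.IsHomogeneous 1) (hl0 : l ≠ 0) (hI : l ∈ I) :
    ∃ ψ : Fin 12 → (M →ₗ[Pol ℂ] M),
      (∀ (i : Fin 12) (d : ℕ) (u : M), u ∈ G.piece d → ψ i u ∈ G.piece (d + 2)) ∧
      (∀ i : Fin 12, Traceless F (ψ i)) ∧
      ∀ c : Fin 12 → ℂ, (∀ (u : M) (j : Fin 4), ∃ k : ℕ,
        (X j : Pol ℂ) ^ k • ∑ i : Fin 12, (C (c i) : Pol ℂ) • ψ i u = 0) → c = 0 := by
  obtain ⟨s, m, h, -⟩ := hE.pencil hF hirr hl hl0 hI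
  exact h.twelve hirr hl0

end Pool.Agent.P.MP_2b2d3b_ag.Old.CoObstruction
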