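import Pool.Agent.P.MP_2b2d3b_ag.Extr
import Pool.Agent.P.MP_2b2d3b_ag.VG2

/-!
On a very general sextic surface, the bundles `0 → O_S → E → J_P(1) → 0` with `P` of length `11`
in a plane are exactly the fibres of one family of bundles over an irreducible base, and the plane
of the generic member is generic.
-/

namespace Pool.Agent.P.MP_2b2d3b_ag.Old.PlanarIrreducible

open MvPolynomial Pool.Agent.P.MP_2b2d3b_ag

theorem result (F : Pol ℂ) (hF : F.IsHomogeneous 6)
    (hgen : AlgebraicIndependent ℚ fun m : {m : Fin 4 →₀ ℕ // m.degree = 6} => coeff m.1 F) :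
    ∃ (B : Type) (_ : CommRing B) (_ : IsDomain B) (_ : Algebra ℂ B) (_ : Algebra.FiniteType ℂ B)
      (N : Type) (_ : AddCommGroup N) (_ : Module (Pol B) N) (G : Grading B N) (c : Fin 4 → B),
      IsRankTwoBundle (map (algebraMap ℂ B) F) N ∧ AlgebraicIndependent ℂ c ∧
      (∀ t : B →ₐ[ℂ] ℂ, ∃ (M : Type) (_ : AddCommGroup M) (_ : Module (Pol ℂ) M)
        (GM : Grading ℂ M) (I : Ideal (Pol ℂ)), IsExtension F GM I ∧
        linForm (fun i => t (c i)) ≠ 0 ∧ linForm (fun i => t (c i)) ∈ I ∧ IsFibre t G GM) ∧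
      ∀ (M : Type) [AddCommGroup M] [Module (Pol ℂ) M] (GM : Grading ℂ M) (I : Ideal (Pol ℂ)),
        IsExtension F GM I → (∃ l ∈ I, l.IsHomogeneous 1 ∧ l ≠ 0) →
        ∃ t : B →ₐ[ℂ] ℂ, IsFibre t G GM :=
  main (IndepCoeff.good ⟨hF, hgen⟩)

end Pool.Agent.P.MP_2b2d3b_ag.Old.PlanarIrreducible
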