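import Pool.Agent.P.MP_2b2d3b_ag.Old.PlanarIrreducible
import Pool.Agent.P.MP_2b2d3b_ag.Old.CoObstruction

/-!
The two parts of the Mestrano-Simpson conjecture left open: the locus of planar extensions is
irreducible with generic plane, and each of its members has twelve independent traceless
endomorphisms twisted by the canonical class.
-/

namespace Pool.Agent.P.MP_2b2d3b_ag.Old.SecondComponent

open MvPolynomial Pool.Agent.P.MP_2b2d3b_ag

theorem result (F : Pol ℂ) (hF : F.IsHomogeneous 6)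
    (hgen : AlgebraicIndependent ℚ fun m : {m : Fin 4 →₀ ℕ // m.degree = 6} => coeff m.1 F) :
    ∃ (B : Type) (_ : CommRing B) (_ : IsDomain B) (_ : Algebra ℂ B) (_ : Algebra.FiniteType ℂ B)
      (N : Type) (_ : AddCommGroup N) (_ : Module (Pol B) N) (G : Grading B N) (c : Fin 4 → B),
      IsRankTwoBundle (map (algebraMap ℂ B) F) N ∧ AlgebraicIndependent ℂ c ∧
      (∀ t : B →ₐ[ℂ] ℂ, ∃ (M : Type) (_ : AddCommGroup M) (_ : Module (Pol ℂ) M)
        (GM : Grading ℂ M) (I : Ideal (Pol ℂ)), IsExtension F GM I ∧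
        linForm (fun i => t (c i)) ≠ 0 ∧ linForm (fun i => t (c i)) ∈ I ∧ IsFibre t G GM) ∧
      ∀ (M : Type) [AddCommGroup M] [Module (Pol ℂ) M] (GM : Grading ℂ M) (I : Ideal (Pol ℂ)),
        IsExtension F GM I → (∃ l ∈ I, l.IsHomogeneous 1 ∧ l ≠ 0) →
        (∃ t : B →ₐ[ℂ] ℂ, IsFibre t G GM) ∧
        ∃ ψ : Fin 12 → (M →ₗ[Pol ℂ] M),
          (∀ (i : Fin 12) (d : ℕ) (u : M), u ∈ GM.piece d → ψ i u ∈ GM.piece (d + 2)) ∧
          (∀ i : Fin 12, CoObstruction.Traceless F (ψ i)) ∧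
          ∀ a : Fin 12 → ℂ, (∀ (u : M) (j : Fin 4), ∃ k : ℕ,
            (X j : Pol ℂ) ^ k • ∑ i : Fin 12, (C (a i) : Pol ℂ) • ψ i u = 0) → a = 0 := by
  obtain ⟨B, _, _, _, _, N, _, _, G, c, h1, h2, h3, h4⟩ := PlanarIrreducible.result F hF hgen
  refine ⟨B, inferInstance, inferInstance, inferInstance, inferInstance, N, inferInstance,
    inferInstance, G, c, h1, h2, h3, fun M _ _ GM I hE hl => ⟨h4 M GM I hE hl, ?_⟩⟩
  obtain ⟨l, hI, hl, hl0⟩ := hl
  exact CoObstruction.result F hF (IndepCoeff.good ⟨hF, hgen⟩).irred M GM I hE l hl hl0 hI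

end Pool.Agent.P.MP_2b2d3b_ag.Old.SecondComponent
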